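import Pool.Agent.W98.OS.Defs

set_option autoImplicit false

namespace Pool.Agent.W358.OS

open Pool.Agent.Helper929 Pool.Agent.W98.OS Matrix

theorem T_ALT : Pool.Agent.W98.OS.S_ALT := by
  intro K _ _ α g hg m x hx
  rw [Function.Injective] at hx
  push Not at hx
  obtain ⟨i, j, hxy, hij⟩ := hx
  set A : Matrix (Fin m) (Fin m) K := Matrix.of fun k l => g (x k) (x l) with hA
  have hsk : ∀ k l, A k l = - A l k := fun k l => hg _ _
  set P : Matrix (Fin m) (Fin m) K := Matrix.of fun k l =>
    if k = i then (if l = j then 1 else 0) else (if l = k then 1 else 0) with hP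
  have hPA : ∀ B : Matrix (Fin m) (Fin m) K, ∀ k l, (P * B) k l = if k = i then B j l else B k l := by
    intro B k l
    rw [Matrix.mul_apply]
    by_cases hk : k = i
    · simp [hP, hk]
    · simp [hP, hk]
  have hPAP : P * A * Pᵀ = A := by
    have h1 : P * A = A := by
      ext k l
      rw [hPA]
      split_ifs with hk
      · subst hk
        simp only [hA, Matrix.of_apply]
        rw [hxy]
      · rfl
    rw [h1]
    have h2 : A = - Aᵀ := by
      ext k l
      rw [Matrix.neg_apply, Matrix.transpose_apply]
      exact hsk k l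
    have h3 : A * Pᵀ = - (P * A)ᵀ := by
      rw [Matrix.transpose_mul]
      conv_lhs => rw [h2]
      rw [Matrix.neg_mul]
    rw [h3, h1]
    exact h2.symm
  have hdet : P.det = 0 := by
    apply Matrix.det_zero_of_row_eq hij
    funext l
    simp [hP, Ne.symm hij]
  have := pf_gram A hsk P
  rw [hPAP, hdet, zero_mul] at this
  exact this

end Pool.Agent.W358.OS
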