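import Pool.Agent.W98.OS.Defs

set_option autoImplicit false

namespace Pool.Agent.W358.OS

open Pool.Agent.W98.OS

section FRZ

variable {R : Type*} [CommRing R]

/-- Pull a constant out of `row`. -/
theorem row_const (k x : R) : ∀ (ys : List R) (h : Bool) (vs : List Bool) (F : List Bool → R),
    row x h ys vs (fun u => k * F u) = k * row x h ys vs F := by
  intro ys
  induction ys with
  | nil =>
    intro h vs F
    cases vs with
    | nil => simp only [row]; split_ifs <;> simp
    | cons v vs => simp [row]
  | cons y ys ih =>
    intro h vs F
    cases vs with
    | nil => simp [row]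
    | cons v vs =>
      cases h <;> cases v <;> simp only [row]
      · rw [ih false vs (fun u => F (false :: u)), ih true vs (fun u => F (true :: u))]; ring
      · rw [ih false vs (fun u => F (true :: u))]; ring
      · rw [ih true vs (fun u => F (false :: u))]; ring
      · rw [ih true vs (fun u => F (true :: u)), ih false vs (fun u => F (false :: u))]; ring

/-- `row` depends only on the values of `F` at lists of the right length. -/
theorem row_congr (x : R) : ∀ (ys : List R) (h : Bool) (vs : List Bool) (F G : List Bool → R),
    (∀ u : List Bool, u.length = ys.length → F u = G u) →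
    row x h ys vs F = row x h ys vs G := by
  intro ys
  induction ys with
  | nil =>
    intro h vs F G hFG
    cases vs with
    | nil => simp only [row]; rw [hFG [] rfl]
    | cons v vs => simp [row]
  | cons y ys ih =>
    intro h vs F G hFG
    cases vs with
    | nil => simp [row]
    | cons v vs =>
      have e : ∀ (b h' : Bool), row x h' ys vs (fun u => F (b :: u)) =
          row x h' ys vs (fun u => G (b :: u)) := by
        intro b h'
        apply ih
        intro u hu
        apply hFG
        simp [hu]
      cases h <;> cases v <;> simp only [row] <;> simp only [e]

/-- (a) -/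
theorem row_true (x : R) : ∀ (ys : List R) (F : List Bool → R),
    row x true ys (zs ys.length) F = (ys.map fun t => 1 - x * t).prod * F (zs ys.length) := by
  intro ys
  induction ys with
  | nil => intro F; simp [zs, row]
  | cons y ys ih =>
    intro F
    have : zs (y :: ys).length = false :: zs ys.length := by simp [zs, List.replicate_succ]
    rw [this]
    simp only [row]
    rw [ih (fun u => F (false :: u))]
    simp only [List.map_cons, List.prod_cons]
    ring

theorem row_true_zero {x y : R} (h : x * y = 1) (l : List R) (F : List Bool → R) :
    row x true (l ++ [y]) (zs (l ++ [y]).length) F = 0 := by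
  rw [row_true]
  simp [h]

/-- (b) -/
theorem row_false {x y : R} (hxy : x * y = 1) : ∀ (l : List R) (F : List Bool → R),
    row x false (l ++ [y]) (zs (l ++ [y]).length) F =
      (l.map fun t => 1 - x - t).prod * F (zs l.length ++ [true]) := by
  intro l
  induction l with
  | nil => intro F; simp [zs, row]
  | cons t l ih =>
    intro F
    have h1 : zs ((t :: l) ++ [y]).length = false :: zs (l ++ [y]).length := by
      simp [zs, List.replicate_succ]
    have h2 : zs (t :: l).length = false :: zs l.length := by simp [zs, List.replicate_succ]
    rw [h1, h2, List.cons_append]
    simp only [row]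
    rw [ih (fun u => F (false :: u)), row_true_zero hxy l (fun u => F (true :: u))]
    simp only [List.map_cons, List.prod_cons, List.cons_append]
    ring

/-- (c) -/
theorem row_snoc (t y : R) : ∀ (ys : List R) (h : Bool) (vs : List Bool) (G : List Bool → R),
    vs.length = ys.length →
    row t h (ys ++ [y]) (vs ++ [true]) G =
      (1 - t - y) * row t h ys vs (fun u => G (u ++ [true])) := by
  intro ys
  induction ys with
  | nil =>
    intro h vs G hl
    have : vs = [] := List.length_eq_zero_iff.1 hl
    subst this
    cases h <;> simp [row]
  | cons z ys ih =>
    intro h vs G hl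
    cases vs with
    | nil => simp at hl
    | cons v vs =>
      have hl' : vs.length = ys.length := by simpa using hl
      have e : ∀ (b h' : Bool), row t h' (ys ++ [y]) (vs ++ [true]) (fun u => G (b :: u)) =
          (1 - t - y) * row t h' ys vs (fun u => G (b :: (u ++ [true]))) := by
        intro b h'
        exact ih h' vs (fun u => G (b :: u)) hl'
      cases h <;> cases v <;> simp only [List.cons_append, row] <;> simp only [e] <;> ring


/-- (d) -/
theorem Ef_snoc (y : R) : ∀ (l : List R) (vs : List Bool), vs.length = l.length →
    Ef (l ++ [y]) (vs ++ [true]) = (l.map fun t => 1 - t - y).prod * Ef l vs := by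
  intro l
  induction l with
  | nil =>
    intro vs hl
    have : vs = [] := List.length_eq_zero_iff.1 hl
    subst this
    simp [Ef, Zf, row]
  | cons t l ih =>
    intro vs hl
    cases vs with
    | nil => simp at hl
    | cons v vs =>
      have hl' : vs.length = l.length := by simpa using hl
      have key : ∀ h : Bool, row t h (l ++ [y]) (vs ++ [true]) (Ef (l ++ [y])) =
          (1 - t - y) * ((l.map fun t => 1 - t - y).prod * row t h l vs (Ef l)) := by
        intro h
        rw [row_snoc t y l h vs _ hl']
        congr 1
        rw [← row_const]
        apply row_congr
        intro u hu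
        exact ih u hu
      have key' := key
      unfold Ef at key' ⊢
      cases v <;> simp only [List.cons_append, Zf, List.map_cons, List.prod_cons, zero_mul,
        add_zero, one_mul] <;> rw [key'] <;> ring

/-- (e) -/
theorem Wf_snoc (y : R) : ∀ (l : List R) (vs : List Bool), vs.length = l.length →
    Wf (l ++ [y]) (vs ++ [true]) = (1 - 2 * y) * (l.map fun t => 1 - t - y).prod * Wf l vs := by
  intro l
  induction l with
  | nil =>
    intro vs hl
    have : vs = [] := List.length_eq_zero_iff.1 hl
    subst this
    simp [Wf, row]
  | cons t l ih =>
    intro vs hl
    cases vs with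
    | nil => simp at hl
    | cons v vs =>
      have hl' : vs.length = l.length := by simpa using hl
      have key : ∀ h : Bool, row t h (l ++ [y]) (vs ++ [true]) (Ef (l ++ [y])) =
          (1 - t - y) * ((l.map fun t => 1 - t - y).prod * row t h l vs (Ef l)) := by
        intro h
        rw [row_snoc t y l h vs _ hl']
        congr 1
        rw [← row_const]
        apply row_congr
        intro u hu
        exact Ef_snoc y l u hu
      have key2 : ∀ h : Bool, row t h (l ++ [y]) (vs ++ [true]) (Wf (l ++ [y])) =
          (1 - t - y) * ((1 - 2 * y) * (l.map fun t => 1 - t - y).prod * row t h l vs (Wf l)) := by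
        intro h
        rw [row_snoc t y l h vs _ hl']
        congr 1
        rw [← row_const]
        apply row_congr
        intro u hu
        exact ih u hu
      cases v <;> simp only [List.cons_append, Wf, List.map_cons, List.prod_cons,
        List.map_append, List.prod_append, List.map_nil, List.prod_nil] <;>
        rw [key, key2] <;> ring

end FRZ

theorem T_FRZ : Pool.Agent.W98.OS.S_FRZ := by
  intro R _ x y l hxy
  have hz : zs (x :: (l ++ [y])).length = false :: zs (l ++ [y]).length := by
    simp [zs, List.replicate_succ]
  have hzl : (zs l.length).length = l.length := by simp [zs]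
  have hprod : (l.map fun t => (1 - x - t) * (1 - t - y)).prod =
      (l.map fun t => 1 - x - t).prod * (l.map fun t => 1 - t - y).prod := by
    rw [List.prod_map_mul]
  constructor
  · unfold Z0
    rw [hz]
    unfold Ef
    simp only [Zf, zero_mul, add_zero, one_mul]
    rw [row_false hxy]
    have := Ef_snoc y l (zs l.length) hzl
    unfold Ef at this
    rw [this, hprod]
    ring
  · unfold W0
    rw [hz]
    simp only [Wf]
    rw [row_false hxy, row_true_zero hxy, Wf_snoc y l (zs l.length) hzl, hprod]
    ring

end Pool.Agent.W358.OS
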