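import Pool.Agent.W98.OS.Defs

set_option autoImplicit false

namespace Pool.Agent.W358.OS

open Pool.Agent.Helper929 Pool.Agent.W98.OS Matrix

/-- One elimination step. -/
theorem pf_elim (hB : S_BLK) (m : ℕ) (A : Matrix (Fin (m + 2)) (Fin (m + 2)) ℚ)
    (hA : ∀ i j, A i j = - A j i) (p : Fin (m + 2) → ℚ)
    (hp1 : p (Fin.last m).castSucc = 1) (hp0 : p (Fin.last (m + 1)) = 0)
    (hz : ∀ i : Fin m, ∑ a, p a * A a i.castSucc.castSucc = 0) :
    pf (m + 2) A = (∑ a, p a * A a (Fin.last (m + 1))) *
      pf m (A.submatrix (fun i => i.castSucc.castSucc) (fun i => i.castSucc.castSucc)) := by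
  set k : Fin (m + 2) := (Fin.last m).castSucc with hk
  set P : Matrix (Fin (m + 2)) (Fin (m + 2)) ℚ := Matrix.of fun i j =>
    if i = k then p j else (if j = i then 1 else 0) with hP
  have hck : ∀ i : Fin m, i.castSucc.castSucc ≠ k := by
    intro i h
    have := congrArg Fin.val h
    simp [hk] at this
    omega
  have hlk : Fin.last (m + 1) ≠ k := by
    intro h
    have := congrArg Fin.val h
    simp [hk] at this
  have hPA : ∀ (B : Matrix (Fin (m + 2)) (Fin (m + 2)) ℚ) (i j : Fin (m + 2)),
      (P * B) i j = if i = k then ∑ a, p a * B a j else B i j := by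
    intro B i j
    rw [Matrix.mul_apply]
    by_cases h : i = k
    · simp [hP, h]
    · simp [hP, h]
  have hPAP : ∀ (i j : Fin (m + 2)),
      (P * A * Pᵀ) i j = if j = k then ∑ b, p b * (P * A) i b else (P * A) i j := by
    intro i j
    rw [Matrix.mul_apply]
    by_cases h : j = k
    · simp only [hP, h, Matrix.transpose_apply, Matrix.of_apply, if_true]
      exact Finset.sum_congr rfl fun b _ => mul_comm _ _
    · simp [hP, h, Matrix.transpose_apply]
  have hdet : P.det = 1 := by
    have ht : P.BlockTriangular OrderDual.toDual := by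
      intro i j hij
      have hij' : i < j := hij
      simp only [hP, Matrix.of_apply]
      split_ifs with h1 h2
      · have : j = Fin.last (m + 1) := by
          apply Fin.ext
          have h3 : (i : ℕ) < j := hij'
          have h4 : (i : ℕ) = m := by rw [h1, hk]; simp
          have h5 := j.isLt
          simp only [Fin.val_last]
          omega
        rw [this, hp0]
      · exact absurd h2 hij'.ne'
      · rfl
    rw [Matrix.det_of_lowerTriangular P ht]
    apply Finset.prod_eq_one
    intro i _
    simp only [hP, Matrix.of_apply]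
    split_ifs with h1
    · rw [h1, hp1]
    · rfl
  have hpf := pf_gram A hA P
  rw [hdet, one_mul] at hpf
  have hsk : ∀ i j, (P * A * Pᵀ) i j = - (P * A * Pᵀ) j i := by
    intro i j
    have h2 : Aᵀ = - A := by
      ext k l
      rw [Matrix.neg_apply, Matrix.transpose_apply]
      exact hA l k
    have h3 : (P * A * Pᵀ)ᵀ = - (P * A * Pᵀ) := by
      rw [Matrix.transpose_mul, Matrix.transpose_mul, Matrix.transpose_transpose, h2]
      rw [Matrix.neg_mul, Matrix.mul_neg, Matrix.mul_assoc]
    have := congrFun (congrFun h3 j) i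
    rw [Matrix.transpose_apply, Matrix.neg_apply] at this
    exact this
  have hz' : ∀ i : Fin m, (P * A * Pᵀ) i.castSucc.castSucc k = 0 := by
    intro i
    rw [hPAP, if_pos rfl]
    have : ∀ b, p b * (P * A) i.castSucc.castSucc b = - (p b * A b i.castSucc.castSucc) := by
      intro b
      rw [hPA, if_neg (hck i), hA]
      ring
    simp only [this, Finset.sum_neg_distrib, hz, neg_zero]
  have hbl := hB m (P * A * Pᵀ) hsk hz'
  rw [hpf] at hbl
  rw [hbl]
  congr 1
  · rw [hPAP, if_neg hlk, hPA, if_pos rfl]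
  · congr 1
    ext i j
    rw [Matrix.submatrix_apply, Matrix.submatrix_apply, hPAP, if_neg (hck j), hPA, if_neg (hck i)]

open Pool.Agent.W223.Osasm in
/-- the even Pfaffian -/
noncomputable def VV (n : ℕ) : ℚ := pf (2 * n) (Matrix.of fun i j : Fin (2 * n) => c i j)

open Pool.Agent.W223.Osasm in
theorem VV_succ (hK : S_KER) (hB : S_BLK) (n : ℕ) : VV (n + 1) = hh n * VV n := by
  obtain ⟨p, hd, h1, h0, hh', -⟩ := hK n
  have hlast : p.coeff (2 * n + 1) = 0 := Polynomial.coeff_eq_zero_of_natDegree_lt (by omega)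
  have key := pf_elim hB (2 * n) (Matrix.of fun i j : Fin (2 * n + 2) => c i j)
    (fun i j => c_skew _ _) (fun a => p.coeff a) (by simpa using h1) (by simpa using hlast) (by
      intro i
      rw [Fin.sum_univ_castSucc]
      simp only [Matrix.of_apply, Fin.val_castSucc, Fin.val_last, hlast, zero_mul, add_zero]
      rw [Fin.sum_univ_eq_sum_range (fun a => p.coeff a * c a i) (2 * n + 1)]
      exact h0 _ (by omega))
  have hs : ∑ a : Fin (2 * n + 2), p.coeff (a : ℕ) *
      (Matrix.of fun i j : Fin (2 * n + 2) => c i j) a (Fin.last (2 * n + 1)) = hh n := by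
    rw [Fin.sum_univ_castSucc]
    simp only [Matrix.of_apply, Fin.val_castSucc, Fin.val_last, hlast, zero_mul, add_zero]
    rw [Fin.sum_univ_eq_sum_range (fun a => p.coeff a * c a (2 * n + 1)) (2 * n + 1)]
    exact hh'
  rw [hs] at key
  exact key

theorem VV_eq (hK : S_KER) (hB : S_BLK) (n : ℕ) : VV n = ∏ k ∈ Finset.range n, hh k := by
  induction n with
  | zero => simp [VV, pf]
  | succ n ih => rw [VV_succ hK hB, ih, Finset.prod_range_succ, mul_comm]

open Pool.Agent.W223.Osasm in
theorem gC_skew (a b : Option ℕ) : gC a b = - gC b a := by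
  rcases a with _ | a <;> rcases b with _ | b <;> simp [gC]
  exact c_skew a b

open Pool.Agent.W223.Osasm in
theorem T_PFK (hK : S_KER) (hB : S_BLK) : Pool.Agent.W98.OS.S_PFK := by
  intro n
  rw [← VV_eq hK hB]
  obtain ⟨p, hd, h1, h0, -, h2⟩ := hK n
  have hlast : p.coeff (2 * n + 1) = 0 := Polynomial.coeff_eq_zero_of_natDegree_lt (by omega)
  have ha : ∀ i : Fin (2 * n + 1), addN (fun i : Fin (2 * n + 1) => (i : ℕ)) i.castSucc =
      some (i : ℕ) := by
    intro i
    simp [addN, Fin.snoc_castSucc]
  have hn : addN (fun i : Fin (2 * n + 1) => (i : ℕ)) (Fin.last (2 * n + 1)) = none := by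
    simp [addN, Fin.snoc_last]
  set A : Matrix (Fin (2 * n + 2)) (Fin (2 * n + 2)) ℚ := Matrix.of fun i j =>
    gC (addN (fun i : Fin (2 * n + 1) => (i : ℕ)) i) (addN (fun i : Fin (2 * n + 1) => (i : ℕ)) j)
    with hA
  have key := pf_elim hB (2 * n) A
    (fun i j => gC_skew _ _) (fun a => p.coeff a) (by simpa using h1) (by simpa using hlast) (by
      intro i
      rw [Fin.sum_univ_castSucc]
      simp only [hA, Matrix.of_apply, Fin.val_castSucc, Fin.val_last, hlast, zero_mul, add_zero, ha,
        gC]
      rw [Fin.sum_univ_eq_sum_range (fun a => p.coeff a * c a i) (2 * n + 1)]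
      exact h0 _ (by omega))
  have hs : ∑ a : Fin (2 * n + 2), p.coeff (a : ℕ) * A a (Fin.last (2 * n + 1)) = ff n := by
    rw [Fin.sum_univ_castSucc]
    simp only [hA, Matrix.of_apply, Fin.val_castSucc, Fin.val_last, hlast, zero_mul, add_zero, ha,
      hn, gC]
    rw [Fin.sum_univ_eq_sum_range (fun a => p.coeff a * 2 ^ a) (2 * n + 1), ← h2,
      Polynomial.eval_eq_sum_range' (Nat.lt_succ_of_le hd)]
  rw [hs] at key
  have hsub : A.submatrix (fun i : Fin (2 * n) => i.castSucc.castSucc)
      (fun i => i.castSucc.castSucc) = Matrix.of fun i j : Fin (2 * n) => c i j := by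
    ext i j
    simp only [hA, Matrix.submatrix_apply, Matrix.of_apply, ha, gC, Fin.val_castSucc]
  rw [hsub] at key
  exact key

end Pool.Agent.W358.OS
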